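import Pool.Agent.Helper30.BG.Goals

/-! MP_66e6f4_an, project BG: packet LIM (blow-down limits). -/

open InnerProductSpace Metric Set Filter Topology MeasureTheory
open scoped ContDiff Laplacian

namespace Pool.Agent.Helper49.BG

open Pool.Agent.Helper30.BG

theorem abs_coord_le (x : E3) (i : Fin 3) : |x i| ≤ ‖x‖ := by
  have := PiLp.norm_apply_le x i
  simpa [Real.norm_eq_abs] using this

/-- points of the small ball around `R ξ` -/
theorem ball_coord {ξ y : E3} {R : ℝ} (hR : 0 < R) (hy : y ∈ ball (R • ξ) (R * |ξ 0| / 2)) :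
    |y 0 - R * ξ 0| < R * |ξ 0| / 2 ∧ ‖y‖ ≤ R * (3 / 2 * ‖ξ‖) := by
  have h1 : ‖y - R • ξ‖ < R * |ξ 0| / 2 := by simpa [dist_eq_norm] using hy
  have h2 : |(y - R • ξ) 0| ≤ ‖y - R • ξ‖ := abs_coord_le _ 0
  have h3 : (y - R • ξ) 0 = y 0 - R * ξ 0 := by simp
  rw [h3] at h2
  refine ⟨h2.trans_lt h1, ?_⟩
  have h4 : ‖y‖ ≤ ‖y - R • ξ‖ + ‖R • ξ‖ := by
    have := norm_add_le (y - R • ξ) (R • ξ)
    simpa using this
  rw [norm_smul, Real.norm_eq_abs, abs_of_pos hR] at h4
  have h5 := abs_coord_le ξ 0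
  have h6 : R * |ξ 0| ≤ R * ‖ξ‖ := mul_le_mul_of_nonneg_left h5 hR.le
  linarith

theorem Fp_zero {f : ℝ → ℝ} {a0 v : ℝ} (h : ∀ t, t ≤ max a0 v → f t = 0) : Fp f a0 v = 0 := by
  unfold Fp
  have : ∀ t ∈ uIcc a0 v, f t = (fun _ => (0 : ℝ)) t := fun t ht => h t (by
    rw [mem_uIcc] at ht
    rcases ht with ht | ht
    · exact ht.2.trans (le_max_right _ _)
    · exact ht.2.trans (le_max_left _ _))
  rw [intervalIntegral.integral_congr this]
  simp

/-- core: the gradient at `R ξ` -/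
theorem core (hH : S_HARN) {u : E3 → ℝ} (hu : ContDiff ℝ 2 u) {γ : ℝ} {ξ : E3} (hξ : ξ 0 ≠ 0)
    (hup : ∀ x : E3, 0 ≤ x 0 * ξ 0 → u x ≤ γ * x 0)
    (hsub : ∀ δ : ℝ, 0 < δ → ∃ R : ℝ, ∀ x : E3, 0 ≤ x 0 * ξ 0 → R ≤ ‖x‖ → γ * x 0 - u x ≤ δ * ‖x‖)
    (hharm : ∀ᶠ R : ℝ in atTop, ∀ y ∈ ball (R • ξ) (R * |ξ 0| / 2), Δ u y = 0) (j : Fin 3) :
    Tendsto (fun R : ℝ => pd j u (R • ξ)) atTop (𝓝 (if j = 0 then γ else 0)) := by
  obtain ⟨C, hC1, hC⟩ := hH
  have hξpos : 0 < |ξ 0| := abs_pos.2 hξ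
  have hnorm : 0 < ‖ξ‖ := hξpos.trans_le (abs_coord_le ξ 0)
  rw [Metric.tendsto_atTop]
  intro ε hε
  set δ : ℝ := ε * |ξ 0| / (4 * C * ‖ξ‖) with hδ
  have hC0 : 0 < C := by linarith
  have hδ0 : 0 < δ := by positivity
  obtain ⟨R0, hR0⟩ := hsub δ hδ0
  obtain ⟨R1, hR1⟩ := eventually_atTop.1 hharm
  refine ⟨max (max R1 1) (R0 / ‖ξ‖), fun R hR => ?_⟩
  have hRR1 : R1 ≤ R := (le_max_left _ _).trans ((le_max_left _ _).trans hR)
  have hR1' : 1 ≤ R := (le_max_right _ _).trans ((le_max_left _ _).trans hR)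
  have hRR0 : R0 / ‖ξ‖ ≤ R := (le_max_right _ _).trans hR
  have hRpos : 0 < R := by linarith
  have hr : 0 < R * |ξ 0| / 2 := by positivity
  -- the function `w`
  have hw2 : ∀ x : E3, HD2 (fun y => γ * y 0 - u y) x
      (fun i => γ * (Pi.single (0 : Fin 3) (1 : ℝ) : Fin 3 → ℝ) i - pd i u x) (γ * 0 - Δ u x) := by
    intro x
    have h1 := ((HD2.coord 0 x).const_mul γ).sub (HD2.mk' (hu.contDiffAt (x := x)))
    exact h1
  have hwc : ContDiff ℝ 2 (fun y : E3 => γ * y 0 - u y) :=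
    contDiff_iff_contDiffAt.2 fun x => (hw2 x).cd
  have hsign : ∀ y ∈ ball (R • ξ) (R * |ξ 0| / 2), 0 ≤ y 0 * ξ 0 := by
    intro y hy
    have h1 := (ball_coord hRpos hy).1
    rcases lt_or_gt_of_ne hξ with hneg | hpos
    · rw [abs_of_neg hneg] at h1
      have h2 := (abs_lt.1 h1).2
      have : y 0 ≤ 0 := by nlinarith
      exact mul_nonneg_of_nonpos_of_nonpos this hneg.le
    · rw [abs_of_pos hpos] at h1
      have h2 := (abs_lt.1 h1).1
      have : 0 ≤ y 0 := by nlinarith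
      exact mul_nonneg this hpos.le
  have hG := (hC (fun y => γ * y 0 - u y) (R • ξ) (R * |ξ 0| / 2) hr hwc
    (fun y hy => by rw [(hw2 y).lap, hR1 R hRR1 y hy]; ring)
    (fun y hy => sub_nonneg.2 (hup y (hsign y hy)))).2 j
  rw [(hw2 (R • ξ)).pd j] at hG
  have hcs : 0 ≤ (R • ξ) 0 * ξ 0 := hsign _ (mem_ball_self hr)
  have hn : ‖R • ξ‖ = R * ‖ξ‖ := by rw [norm_smul, Real.norm_eq_abs, abs_of_pos hRpos]
  have hwx := hR0 (R • ξ) hcs (by rw [hn]; exact (div_le_iff₀ hnorm).1 hRR0)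
  rw [hn] at hwx
  have hbound : C * (γ * (R • ξ) 0 - u (R • ξ)) / (R * |ξ 0| / 2) ≤ ε / 2 := by
    rw [div_le_iff₀ hr]
    have h1 : C * (γ * (R • ξ) 0 - u (R • ξ)) ≤ C * (δ * (R * ‖ξ‖)) :=
      mul_le_mul_of_nonneg_left hwx hC0.le
    refine h1.trans (le_of_eq ?_)
    rw [hδ]
    field_simp
    norm_num
  have hfin := hG.trans hbound
  have he : pd j u (R • ξ) - (if j = 0 then γ else 0) =
      -(γ * (Pi.single (0 : Fin 3) (1 : ℝ) : Fin 3 → ℝ) j - pd j u (R • ξ)) := by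
    by_cases hj : j = 0
    · subst hj; simp
    · simp [hj]
  rw [Real.dist_eq, he, abs_neg]
  linarith

theorem lim (hH : S_HARN) : S_LIM := by
  intro f u a0 a1 α β K hS
  constructor
  · intro ξ hξ
    have hnorm : 0 < ‖ξ‖ := by
      have := abs_coord_le ξ 0
      rw [abs_of_pos hξ] at this
      linarith
    have habs : |ξ 0| = ξ 0 := abs_of_pos hξ
    have hx : ∀ x : E3, 0 ≤ x 0 * ξ 0 → 0 ≤ x 0 := fun x hx => nonneg_of_mul_nonneg_left hx hξ
    have hα := hS.α_pos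
    -- large values
    have hbig : ∀ᶠ R : ℝ in atTop, ∀ y ∈ ball (R • ξ) (R * |ξ 0| / 2), a1 ≤ u y := by
      set δ : ℝ := α * ξ 0 / (8 * ‖ξ‖) with hδ
      have hδ0 : 0 < δ := by positivity
      obtain ⟨R0, hR0⟩ := hS.subp δ hδ0
      filter_upwards [eventually_ge_atTop (1 : ℝ), eventually_ge_atTop (2 * R0 / ξ 0),
        eventually_ge_atTop (a1 * 16 / (5 * α * ξ 0))] with R h1 h2 h3 y hy
      have hRpos : 0 < R := by linarith
      obtain ⟨hb1, hb2⟩ := ball_coord hRpos hy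
      rw [habs] at hb1
      have hy0 : R * ξ 0 / 2 ≤ y 0 := by
        have := (abs_lt.1 hb1).1
        linarith
      have hRξ : 0 < R * ξ 0 := by positivity
      have hyn : R0 ≤ ‖y‖ := by
        have h4 := abs_coord_le y 0
        have h5 : y 0 ≤ |y 0| := le_abs_self _
        have h6 : 2 * R0 ≤ R * ξ 0 := (div_le_iff₀ hξ).1 h2
        linarith
      have h4 := hR0 y (by linarith) hyn
      have h5 : δ * ‖y‖ ≤ 3 / 16 * (α * (R * ξ 0)) := by
        have h6 : δ * ‖y‖ ≤ δ * (R * (3 / 2 * ‖ξ‖)) := mul_le_mul_of_nonneg_left hb2 hδ0.le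
        refine h6.trans (le_of_eq ?_)
        rw [hδ]
        field_simp
        norm_num
      have h6 : α * (R * ξ 0 / 2) ≤ α * y 0 := mul_le_mul_of_nonneg_left hy0 hα.le
      have h7 : a1 * 16 ≤ R * (5 * α * ξ 0) := (div_le_iff₀ (by positivity)).1 h3
      nlinarith
    refine ⟨fun j => ?_, ?_⟩
    · refine core hH hS.cd hξ.ne' (fun x h => hS.up x (hx x h)) (fun δ hδ => ?_) ?_ j
      · obtain ⟨R, hR⟩ := hS.subp δ hδ
        exact ⟨R, fun x h h' => hR x (hx x h) h'⟩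
      · filter_upwards [hbig] with R hR y hy
        rw [hS.eq]
        exact hS.nl.hi _ (hR y hy)
    · filter_upwards [hbig, eventually_ge_atTop (1 : ℝ)] with R hR h1
      refine hR _ (mem_ball_self ?_)
      have : 0 < |ξ 0| := abs_pos.2 hξ.ne'
      positivity
  · intro ξ hξ
    have habs : |ξ 0| = -ξ 0 := abs_of_neg hξ
    have habspos : 0 < |ξ 0| := abs_pos.2 hξ.ne
    have hx : ∀ x : E3, 0 ≤ x 0 * ξ 0 → x 0 ≤ 0 := by
      intro x h
      by_contra hcon
      push Not at hcon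
      nlinarith
    -- vanishing nonlinearity
    have hsmall : ∀ᶠ R : ℝ in atTop, ∀ y ∈ ball (R • ξ) (R * |ξ 0| / 2),
        ∀ t, t ≤ max a0 (u y) → f t = 0 := by
      rcases hS.alt with hβ | hf
      · filter_upwards [eventually_ge_atTop (1 : ℝ), eventually_ge_atTop (-a0 * 2 / (β * |ξ 0|))]
          with R h1 h2 y hy t ht
        have hRpos : 0 < R := by linarith
        have hb1 := (ball_coord hRpos hy).1
        have hy0 : y 0 ≤ -(R * |ξ 0| / 2) := by
          have := (abs_lt.1 hb1).2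
          rw [habs] at this ⊢
          linarith
        have hle : u y ≤ a0 := by
          have h3 : 0 ≤ R * |ξ 0| / 2 := by positivity
          have h4 := hS.dn y (by linarith)
          have h5 : β * y 0 ≤ β * (-(R * |ξ 0| / 2)) := mul_le_mul_of_nonneg_left hy0 hβ.le
          have h6 : -a0 * 2 ≤ R * (β * |ξ 0|) := (div_le_iff₀ (by positivity)).1 h2
          nlinarith
        exact hS.nl.lo t (ht.trans (max_le le_rfl hle))
      · filter_upwards [eventually_ge_atTop (1 : ℝ)] with R h1 y hy t ht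
        have hRpos : 0 < R := by linarith
        have hb1 := (ball_coord hRpos hy).1
        have hy0 : y 0 ≤ 0 := by
          have h2 := (abs_lt.1 hb1).2
          have h3 : 0 ≤ R * |ξ 0| / 2 := by positivity
          rw [habs] at h2 h3
          linarith
        rcases le_total t a0 with h2 | h2
        · exact hS.nl.lo t h2
        · have h3 : t ≤ 0 ∨ t ≤ a0 := by
            rcases le_max_iff.1 ht with h4 | h4
            · exact Or.inr h4
            · left
              have h5 := hS.dn y hy0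
              have h6 : β * y 0 ≤ 0 := mul_nonpos_of_nonneg_of_nonpos hS.β_nn hy0
              linarith
          rcases h3 with h3 | h3
          · exact hf t h3
          · exact hS.nl.lo t h3
    refine ⟨fun j => ?_, ?_⟩
    · refine core hH hS.cd hξ.ne (fun x h => hS.dn x (hx x h)) (fun δ hδ => ?_) ?_ j
      · obtain ⟨R, hR⟩ := hS.subm δ hδ
        exact ⟨R, fun x h h' => hR x (hx x h) h'⟩
      · filter_upwards [hsmall] with R hR y hy
        rw [hS.eq]
        exact hR y hy _ (le_max_right _ _)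
    · filter_upwards [hsmall, eventually_ge_atTop (1 : ℝ)] with R hR h1
      refine Fp_zero (hR _ (mem_ball_self ?_))
      positivity

end Pool.Agent.Helper49.BG
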