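import Pool.Agent.Helper95.BG.Goals

namespace Pool.Agent.Helper49.BG.PkPAR

open Pool.Agent.Helper95.BG
open Pool.Agent.Helper65.LinSpace Pool.Agent.Helper78 Pool.Agent.Helper78.Mpc
  Pool.Agent.Helper78.Xor Finset

theorem bS_sq (n : ℕ) : bS n * bS n ≤ n / (ll n * ll n * ll n) := by
  unfold bS
  exact Nat.sqrt_le _

theorem div_mul3 (n : ℕ) : n / (ll n * ll n * ll n) * (ll n * ll n * ll n) ≤ n :=
  Nat.div_mul_le_self _ _

theorem L_mul {n q : ℕ} (hq : q ≤ ll n) : bS n * bS n * q * ll n ≤ n := by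
  have h1 := bS_sq n
  have h2 := div_mul3 n
  have h3 := ll_pos n
  calc bS n * bS n * q * ll n ≤ n / (ll n * ll n * ll n) * ll n * ll n :=
        Nat.mul_le_mul (Nat.mul_le_mul h1 hq) le_rfl
    _ = n / (ll n * ll n * ll n) * (ll n * ll n * 1) := by ring
    _ ≤ n / (ll n * ll n * ll n) * (ll n * ll n * ll n) :=
        Nat.mul_le_mul le_rfl (Nat.mul_le_mul le_rfl h3)
    _ ≤ n := h2

theorem L_le {n q : ℕ} (hq : q ≤ ll n) : bS n * bS n * q ≤ n :=
  (Nat.le_mul_of_pos_right _ (ll_pos n)).trans (L_mul hq)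

theorem m_div {n m : ℕ} (hm : m ≤ mS n) : m / bS n * (ll n * ll n * ll n) ≤ n := by
  have h1 : m / bS n ≤ n / (ll n * ll n * ll n) := by
    rcases Nat.eq_zero_or_pos (bS n) with h | h
    · rw [h, Nat.div_zero]
      exact Nat.zero_le _
    · refine (Nat.div_le_div_right hm).trans ?_
      unfold mS
      rw [Nat.mul_div_cancel_left _ h]
  exact (Nat.mul_le_mul h1 le_rfl).trans (div_mul3 n)

theorem thm : G_PAR := by
  intro x q m hq hm
  have h0 := ll_le (Nat.log 2 x)
  refine ⟨two_pow_le_CX (by omega), two_pow_le_CX (by omega), ?_, ?_⟩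
  · have hL := L_le hq
    refine (Nat.pow_le_pow_left (pL_le (n := Nat.log 2 x) (by omega)) _).trans ?_
    rw [← pow_mul]
    refine two_pow_le_CX ?_
    have h1 := L_mul hq
    generalize Nat.log 2 x = n at *
    have h3 := ll_pos n
    calc (ll n + 5) * (3 * (bS n * bS n * q)) ≤ (6 * ll n) * (3 * (bS n * bS n * q)) :=
          Nat.mul_le_mul_right _ (by omega)
      _ = 18 * (bS n * bS n * q * ll n) := by ring
      _ ≤ _ := by omega
  · have hL := L_le hq
    refine (Nat.pow_le_pow_left (MM_pL_le (n := Nat.log 2 x) (by omega)) _).trans ?_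
    rw [← pow_mul]
    refine two_pow_le_CX ?_
    have h1 := m_div hm
    generalize Nat.log 2 x = n at *
    have h3 := ll_pos n
    calc (ll n + 8) * (m / bS n * (ll n + 2) + 1)
        ≤ (9 * ll n) * (m / bS n * (3 * ll n) + 1) := by
          refine Nat.mul_le_mul (by omega) (Nat.add_le_add_right (Nat.mul_le_mul le_rfl ?_) 1)
          omega
      _ = 27 * (m / bS n * (ll n * ll n * 1)) + 9 * ll n := by ring
      _ ≤ 27 * (m / bS n * (ll n * ll n * ll n)) + 9 * ll n :=
          Nat.add_le_add_right (Nat.mul_le_mul le_rfl (Nat.mul_le_mul le_rfl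
            (Nat.mul_le_mul le_rfl h3))) _
      _ ≤ _ := by omega

end Pool.Agent.Helper49.BG.PkPAR
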